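import Pool.Agent.MWC.Stmts

namespace Pool.Agent.MWC.H97

open Pool.Agent.Helper14_MV Pool.Agent.Helper2_MV Pool.Agent.MVO Pool.Agent.MWL

/-- `p` is on the relevant side of `j` -/
def rl (r : Bool) (j p : ℕ) : Prop := if r = true then j ≤ p else p ≤ j

theorem rl_refl (r : Bool) (j : ℕ) : rl r j j := by
  unfold rl
  split_ifs <;> exact le_refl _

theorem rl_trans {r : Bool} {j p q : ℕ} (h : rl r j p) (h' : rl r p q) : rl r j q := by
  unfold rl at *
  split_ifs at * <;> omega

/-- heavy side -/
def Hy (r : Bool) (k : ℕ) (c : ℕ → ℕ) (j : ℕ) : Prop := ∃ p ≤ k, rl r j p ∧ 2 ≤ c p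

theorem any_iff (r : Bool) (k : ℕ) (c : ℕ → ℕ) (j : ℕ) :
    (List.range (k + 1)).any (fun p => (if r then Nat.ble j p else Nat.ble p j) && Nat.ble 2 (c p))
      = true ↔ Hy r k c j := by
  rw [List.any_eq_true]
  unfold Hy rl
  constructor
  · rintro ⟨p, hp, h⟩
    rw [List.mem_range] at hp
    rw [Bool.and_eq_true, Nat.ble_eq] at h
    refine ⟨p, by omega, ?_, h.2⟩
    have h1 := h.1
    cases r
    · simpa using h1
    · simpa using h1
  · rintro ⟨p, hp, h, h2⟩
    refine ⟨p, List.mem_range.2 (by omega), ?_⟩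
    rw [Bool.and_eq_true, Nat.ble_eq]
    refine ⟨?_, h2⟩
    cases r
    · simpa using h
    · simpa using h

theorem shp_eq {r : Bool} {k : ℕ} {c c' : ℕ → ℕ} (h : ∀ j ≤ k, (c j = 0 ↔ c' j = 0))
    (h' : ∀ j ≤ k, (Hy r k c j ↔ Hy r k c' j)) : shp r k c = shp r k c' := by
  unfold shp
  apply List.map_congr_left
  intro j hj
  rw [List.mem_range] at hj
  have e1 := h j (by omega)
  have e2 := h' j (by omega)
  rw [← any_iff, ← any_iff] at e2
  by_cases h0 : c j = 0
  · rw [if_pos h0, if_pos (e1.1 h0)]
  · rw [if_neg h0, if_neg (fun h => h0 (e1.2 h))]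
    by_cases h3 : (List.range (k + 1)).any (fun p => (if r then Nat.ble j p else Nat.ble p j) &&
        Nat.ble 2 (c p)) = true
    · rw [if_pos h3, if_pos (e2.1 h3)]
    · rw [if_neg h3, if_neg (fun h => h3 (e2.2 h))]

theorem shp_length (r : Bool) (k : ℕ) (c : ℕ → ℕ) : (shp r k c).length = k + 1 := by
  simp [shp]

open Classical in
theorem rep_shp (r : Bool) (k : ℕ) (c : ℕ → ℕ) {j : ℕ} (hj : j ≤ k) :
    rep (shp r k c) j = if c j = 0 then 0 else if Hy r k c j then 2 else 1 := by
  have hl : j < (shp r k c).length := by rw [shp_length]; omega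
  unfold rep
  rw [List.getD_eq_getElem _ _ hl]
  simp only [shp, List.getElem_map, List.getElem_range]
  by_cases h0 : c j = 0
  · rw [if_pos h0, if_pos h0]
  · rw [if_neg h0, if_neg h0]
    by_cases h3 : Hy r k c j
    · rw [if_pos h3, if_pos ((any_iff r k c j).2 h3)]
    · rw [if_neg h3, if_neg (fun h => h3 ((any_iff r k c j).1 h))]

theorem rep_zero (r : Bool) (k : ℕ) (c : ℕ → ℕ) {j : ℕ} (hj : j ≤ k) :
    rep (shp r k c) j = 0 ↔ c j = 0 := by
  rw [rep_shp r k c hj]
  split_ifs with h1 h2
  · simp [h1]
  · simp [h1]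
  · simp [h1]

theorem rep_le (r : Bool) (k : ℕ) (c : ℕ → ℕ) {j : ℕ} (hj : j ≤ k) :
    rep (shp r k c) j ≤ 2 := by
  rw [rep_shp r k c hj]
  split_ifs <;> omega

theorem rep_one (r : Bool) (k : ℕ) (c : ℕ → ℕ) {j : ℕ} (hj : j ≤ k)
    (h : rep (shp r k c) j = 1) : c j = 1 := by
  by_contra hc
  have h0 : c j ≠ 0 := fun h' => by
    rw [(rep_zero r k c hj).2 h'] at h
    omega
  have h2 : rep (shp r k c) j = 2 := by
    rw [rep_shp r k c hj, if_neg h0, if_pos ⟨j, hj, rl_refl r j, by omega⟩]
  omega

theorem rep_two (r : Bool) (k : ℕ) (c : ℕ → ℕ) {j : ℕ} (hj : j ≤ k)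
    (h : 2 ≤ c j) : rep (shp r k c) j = 2 := by
  rw [rep_shp r k c hj, if_neg (by omega), if_pos ⟨j, hj, rl_refl r j, h⟩]

theorem rep_heavy (r : Bool) (k : ℕ) (c : ℕ → ℕ) {j : ℕ} (hj : j ≤ k)
    (h : 2 ≤ rep (shp r k c) j) : Hy r k c j := by
  rw [rep_shp r k c hj] at h
  split_ifs at h with h1 h2
  · omega
  · exact h2
  · omega

theorem sum_list (n : ℕ) (f : ℕ → ℕ) :
    ((List.range n).map f).sum = ∑ j ∈ Finset.range n, f j := by
  induction n with
  | zero => simp
  | succ n ih => rw [List.range_succ, List.map_append, List.sum_append, ih,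
      Finset.sum_range_succ]; simp

theorem shp_sum (r : Bool) (k : ℕ) (c : ℕ → ℕ) :
    (shp r k c).sum = ∑ j ∈ Finset.range (k + 1), rep (shp r k c) j := by
  have e : shp r k c = (List.range (k + 1)).map (rep (shp r k c)) := by
    apply List.ext_getElem
    · rw [shp_length]; simp
    · intro i h1 h2
      rw [List.getElem_map, List.getElem_range]
      unfold rep
      rw [List.getD_eq_getElem _ _ h1]
  conv_lhs => rw [e]
  rw [sum_list]

theorem two_le_sum {s : Finset ℕ} {a b : ℕ → ℕ} (h : ∀ i ∈ s, min (a i) 2 ≤ b i)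
    (h2 : 2 ≤ ∑ i ∈ s, a i) : 2 ≤ ∑ i ∈ s, b i := by
  by_cases hc : ∃ i ∈ s, 2 ≤ a i
  · obtain ⟨i, hi, ha⟩ := hc
    have h3 := Finset.single_le_sum (f := b) (fun j _ => Nat.zero_le _) hi
    have h4 := h i hi
    omega
  · have h3 : ∑ i ∈ s, a i ≤ ∑ i ∈ s, b i := by
      apply Finset.sum_le_sum
      intro i hi
      have h4 := h i hi
      have h5 : ¬ 2 ≤ a i := fun h' => hc ⟨i, hi, h'⟩
      omega
    omega

theorem deg_iff (r : Bool) (k : ℕ) (c : ℕ → ℕ) : 2 ≤ deg k c ↔ 2 ≤ (shp r k c).sum := by
  rw [shp_sum]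
  unfold deg
  constructor
  · intro h
    refine two_le_sum (fun i hi => ?_) h
    have hi' : i ≤ k := by rw [Finset.mem_range] at hi; omega
    rcases Nat.lt_or_ge (c i) 2 with h1 | h1
    · rcases Nat.eq_zero_or_pos (c i) with h0 | h0
      · rw [h0]; omega
      · have h2 : rep (shp r k c) i ≠ 0 := fun h' => by
          rw [rep_zero r k c hi'] at h'
          omega
        omega
    · rw [rep_two r k c hi' h1]
      omega
  · intro h
    by_cases hc : ∃ i ≤ k, 2 ≤ c i
    · obtain ⟨i, hi, ha⟩ := hc
      have h3 := Finset.single_le_sum (f := c) (fun j _ => Nat.zero_le _)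
        (Finset.mem_range.2 (by omega : i < k + 1))
      omega
    · have h3 : ∑ i ∈ Finset.range (k + 1), rep (shp r k c) i ≤
          ∑ i ∈ Finset.range (k + 1), c i := by
        apply Finset.sum_le_sum
        intro i hi
        have hi' : i ≤ k := by rw [Finset.mem_range] at hi; omega
        rw [rep_shp r k c hi']
        split_ifs with h1 h2
        · omega
        · obtain ⟨p, hp, _, h4⟩ := h2
          exact absurd ⟨p, hp, h4⟩ hc
        · omega
      omega

theorem mem_lsts (q m : ℕ) (l : List ℕ) (h : l.length = m) (h' : ∀ x ∈ l, x < q) :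
    l ∈ lsts q m := by
  induction m generalizing l with
  | zero =>
    rw [List.length_eq_zero_iff.1 h]
    simp [lsts]
  | succ m ih =>
    obtain ⟨x, l', rfl⟩ : ∃ x l', l = x :: l' := by
      cases l with
      | nil => simp at h
      | cons x l' => exact ⟨x, l', rfl⟩
    unfold lsts
    rw [List.mem_flatMap]
    refine ⟨l', ih l' (by simpa using h) (fun y hy => h' y (List.mem_cons_of_mem _ hy)), ?_⟩
    rw [List.mem_map]
    exact ⟨x, List.mem_range.2 (h' x (List.mem_cons_self ..)), rfl⟩

theorem psh_zero {k : ℕ} {f c : ℕ → ℕ} {j : ℕ} :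
    psh k f c j = 0 ↔ ∀ i ≤ k, f i = j → c i = 0 := by
  unfold psh
  rw [Finset.sum_eq_zero_iff]
  constructor
  · intro h i hi hf
    have := h i (Finset.mem_range.2 (by omega))
    rwa [if_pos hf] at this
  · intro h i hi
    split_ifs with hf
    · exact h i (by rw [Finset.mem_range] at hi; omega) hf
    · rfl

theorem le_psh {k : ℕ} {f : ℕ → ℕ} (c : ℕ → ℕ) {i : ℕ} (hi : i ≤ k) : c i ≤ psh k f c (f i) := by
  unfold psh
  have h := Finset.single_le_sum (f := fun i' => if f i' = f i then c i' else 0)
    (fun j _ => Nat.zero_le _) (Finset.mem_range.2 (by omega : i < k + 1))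
  simpa using h

theorem shp_push (r : Bool) (k : ℕ) (c : ℕ → ℕ) (k' : ℕ) (f : ℕ → ℕ) (hf : BMap k k' f) :
    shp r k' (psh k f c) = shp r k' (psh k f (rep (shp r k c))) := by
  apply shp_eq
  · intro j hj
    rw [psh_zero, psh_zero]
    constructor
    · intro h i hi hfi
      rw [rep_zero r k c hi]
      exact h i hi hfi
    · intro h i hi hfi
      rw [← rep_zero r k c hi]
      exact h i hi hfi
  · intro j hj
    constructor
    · rintro ⟨p, hp, hr, h2⟩
      refine ⟨p, hp, hr, ?_⟩
      unfold psh at h2 ⊢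
      refine two_le_sum (fun i hi => ?_) h2
      have hi' : i ≤ k := by rw [Finset.mem_range] at hi; omega
      split_ifs with hfi
      · rcases Nat.lt_or_ge (c i) 2 with h1 | h1
        · rcases Nat.eq_zero_or_pos (c i) with h0 | h0
          · rw [h0]; omega
          · have h2 : rep (shp r k c) i ≠ 0 := fun h' => by
              rw [rep_zero r k c hi'] at h'
              omega
            omega
        · rw [rep_two r k c hi' h1]
          omega
      · omega
    · rintro ⟨p, hp, hr, h2⟩
      by_cases hc : ∃ i ≤ k, f i = p ∧ 2 ≤ rep (shp r k c) i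
      · obtain ⟨i, hi, hfi, h3⟩ := hc
        obtain ⟨i', hi', hr', h4⟩ := rep_heavy r k c hi h3
        refine ⟨f i', hf.le i' hi', rl_trans hr ?_, h4.trans (le_psh c hi')⟩
        rw [← hfi]
        unfold rl at hr' ⊢
        split_ifs at hr' ⊢ with hrr
        · exact hf.mono i i' hr' hi'
        · exact hf.mono i' i hr' hi
      · refine ⟨p, hp, hr, h2.trans ?_⟩
        unfold psh
        apply Finset.sum_le_sum
        intro i hi
        have hi' : i ≤ k := by rw [Finset.mem_range] at hi; omega
        split_ifs with hfi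
        · have h3 : ¬ 2 ≤ rep (shp r k c) i := fun h' => hc ⟨i, hi', hfi, h'⟩
          rcases Nat.eq_zero_or_pos (rep (shp r k c) i) with h0 | h0
          · rw [h0]; omega
          · have h5 : rep (shp r k c) i = 1 := by omega
            rw [h5, rep_one r k c hi' h5]
        · omega

theorem shp_idem (r : Bool) (k : ℕ) (c : ℕ → ℕ) : shp r k (rep (shp r k c)) = shp r k c := by
  have h := shp_push r k c k (fun j => j) ⟨fun _ _ h _ => h, fun _ h => h⟩
  have e : ∀ a : ℕ → ℕ, shp r k (psh k (fun j => j) a) = shp r k a := by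
    intro a
    have e1 : ∀ j ≤ k, psh k (fun j => j) a j = a j := by
      intro j hj
      unfold psh
      rw [Finset.sum_ite_eq' (Finset.range (k + 1)) j, if_pos (Finset.mem_range.2 (by omega))]
    apply shp_eq
    · intro j hj
      rw [e1 j hj]
    · intro j hj
      constructor
      · rintro ⟨p, hp, hr, h2⟩
        exact ⟨p, hp, hr, by rwa [e1 p hp] at h2⟩
      · rintro ⟨p, hp, hr, h2⟩
        exact ⟨p, hp, hr, by rwa [e1 p hp]⟩
  rw [e, e] at h
  exact h.symm

theorem shf : ShfStmt := by
  intro r k c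
  refine ⟨⟨shp_length r k c, fun j hj => ⟨rep_zero r k c hj, rep_le r k c hj, rep_one r k c hj,
    rep_two r k c hj⟩⟩, deg_iff r k c, ?_, ?_, ?_, shp_push r k c, ?_, ?_⟩
  · intro h
    unfold vls
    rw [List.mem_filter, Bool.and_eq_true, decide_eq_true_iff, Nat.ble_eq]
    refine ⟨mem_lsts _ _ _ (shp_length r k c) ?_, shp_idem r k c, (deg_iff r k c).1 h⟩
    intro x hx
    obtain ⟨i, hi, rfl⟩ := List.getElem_of_mem hx
    have hi' : i ≤ k := by rw [shp_length] at hi; omega
    have h1 := rep_le r k c hi'
    unfold rep at h1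
    rw [List.getD_eq_getElem _ _ hi] at h1
    omega
  · intro c' h
    unfold les
    rw [List.all_eq_true]
    intro j hj
    rw [List.mem_range] at hj
    have hj' : j ≤ k := by omega
    rw [Nat.ble_eq, rep_shp r k c hj', rep_shp r k c' hj']
    have h1 := h j hj'
    have h2 : Hy r k c j → Hy r k c' j := by
      rintro ⟨p, hp, hr, h2⟩
      exact ⟨p, hp, hr, h2.trans (h p hp)⟩
    split_ifs with a1 a2 a3 a4 a5 a6 <;> first | omega | (exact absurd (h2 ‹_›) ‹_›)
  · intro c' h
    apply shp_eq
    · intro j hj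
      rw [h j hj]
    · intro j hj
      constructor
      · rintro ⟨p, hp, hr, h2⟩
        exact ⟨p, hp, hr, by rwa [← h p hp]⟩
      · rintro ⟨p, hp, hr, h2⟩
        exact ⟨p, hp, hr, by rwa [h p hp]⟩
  · intro i hi M hM
    unfold hv2
    apply shp_eq
    · intro j hj
      by_cases hji : j = i
      · subst hji
        simp
        omega
      · have e : Nat.beq j i = false := by
          rw [← Bool.not_eq_true, Nat.beq_eq]
          exact hji
        simp only [hji, if_false, e, Bool.false_eq_true, if_false, Nat.add_zero]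
        exact (rep_zero r k c hj).symm
    · intro j hj
      constructor
      · rintro ⟨p, hp, hr, h2⟩
        refine ⟨p, hp, hr, ?_⟩
        by_cases hpi : p = i
        · subst hpi
          simp
        · have e : Nat.beq p i = false := by
            rw [← Bool.not_eq_true, Nat.beq_eq]
            exact hpi
          simp only [hpi, if_false, Nat.add_zero] at h2
          simp only [e, Bool.false_eq_true, if_false]
          rw [rep_two r k c hp h2]
      · rintro ⟨p, hp, hr, h2⟩
        by_cases hpi : p = i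
        · subst hpi
          refine ⟨p, hp, hr, ?_⟩
          simp only [if_true]
          omega
        · have e : Nat.beq p i = false := by
            rw [← Bool.not_eq_true, Nat.beq_eq]
            exact hpi
          simp only [e, Bool.false_eq_true, if_false] at h2
          obtain ⟨p', hp', hr', h4⟩ := rep_heavy r k c hp h2
          exact ⟨p', hp', rl_trans hr hr', by show 2 ≤ c p' + _; omega⟩
  · intro i hi
    rw [Nat.cast_withBot]
    constructor
    · intro h
      have h1 := Finset.mem_of_max h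
      unfold sp at h1
      rw [Finset.mem_filter] at h1
      refine ⟨h1.2, fun j hj hij => ?_⟩
      by_contra hc
      have h2 : j ∈ sp k c := by
        unfold sp
        rw [Finset.mem_filter, Finset.mem_range]
        exact ⟨by omega, hc⟩
      have h3 := Finset.le_max_of_eq h2 h
      omega
    · rintro ⟨h1, h2⟩
      apply le_antisymm
      · apply Finset.max_le
        intro a ha
        unfold sp at ha
        rw [Finset.mem_filter, Finset.mem_range] at ha
        have : a ≤ i := by
          by_contra hc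
          exact ha.2 (h2 a (by omega) (by omega))
        exact WithBot.coe_le_coe.2 this
      · apply Finset.le_max
        unfold sp
        rw [Finset.mem_filter, Finset.mem_range]
        exact ⟨by omega, h1⟩

end Pool.Agent.MWC.H97
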